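import Pool.Agent.Q264.LovaszKK
set_option autoImplicit false
set_option linter.unusedSectionVars false
open Finset

/-! The localized clique-counting inequality for uniform hypergraphs (MP_cab928_co, Q1: true). -/

namespace Pool.Agent.Results.MP_cab928_co.LocalizedCliques

open Pool.Agent.Q264.KK

/-- `C(x,k) = x (x-1) ... (x-k+1) / k!` for real `x`. -/
noncomputable def binom (x : ℝ) (k : ℕ) : ℝ :=
  (∏ j ∈ Finset.range k, (x - j)) / (k.factorial : ℝ)

variable {V : Type*} [Fintype V] [DecidableEq V]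

/-- The degree `d(I)`: the number of edges containing `I`. -/
def deg (H : Finset (Finset V)) (I : Finset V) : ℕ := #(H.filter (fun e => I ⊆ e))

/-- The number `x(I)`: the largest real solution of `d(I) = C(x - |I|, q - |I|)`. -/
noncomputable def xSet (q : ℕ) (H : Finset (Finset V)) (I : Finset V) : ℝ :=
  sSup {x : ℝ | (deg H I : ℝ) = binom (x - #I) (q - #I)}

/-- The set `K(H)` of `t`-cliques: the `t`-sets all of whose `q`-subsets are edges. -/
def cliques (q t : ℕ) (H : Finset (Finset V)) : Finset (Finset V) :=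
  ((univ : Finset V).powersetCard t).filter (fun T => ∀ S, S ⊆ T → #S = q → S ∈ H)

/-- `x(T)`: the maximum of `x(I)` over the `i`-subsets `I` of `T`. -/
noncomputable def xClique (q i : ℕ) (H : Finset (Finset V)) (T : Finset V) : ℝ :=
  sSup ((xSet q H) '' {I : Finset V | I ⊆ T ∧ #I = i})

/-- `s'(T) = 1 / C(x(T) - q, t - q)`. -/
noncomputable def sPrime (q i t : ℕ) (H : Finset (Finset V)) (T : Finset V) : ℝ :=
  1 / binom (xClique q i H T - q) (t - q)

lemma xSet_greatest {q i : ℕ} (hiq : i < q) (H : Finset (Finset V)) (I : Finset V) (hI : #I = i) :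
    IsGreatest {x : ℝ | (deg H I : ℝ) = binom (x - i) (q - i)} (xSet q H I) ∧
      (q:ℝ) - 1 ≤ xSet q H I := by
  obtain ⟨y, hy, hyd⟩ := exists_gbinom_eq (q - i) (by omega) (deg H I : ℝ) (by positivity)
  have hqi : ((q - i : ℕ) : ℝ) = (q:ℝ) - i := by
    rw [Nat.cast_sub hiq.le]
  have hg : IsGreatest {x : ℝ | (deg H I : ℝ) = binom (x - i) (q - i)} (y + i) := by
    constructor
    · change (deg H I : ℝ) = gbinom (y + i - i) (q - i)
      rw [add_sub_cancel_right, hyd]
    · intro x hx
      by_contra hlt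
      push Not at hlt
      have h1 : gbinom y (q - i) < gbinom (x - i) (q - i) :=
        gbinom_strictMono (by omega) hy (by linarith)
      change (deg H I : ℝ) = gbinom (x - i) (q - i) at hx
      rw [hyd, hx] at h1
      exact lt_irrefl _ h1
  have he : xSet q H I = y + i := by
    unfold xSet
    rw [hI]
    exact hg.csSup_eq
  rw [he]
  refine ⟨hg, ?_⟩
  rw [hqi] at hy
  linarith

lemma deg_eq {q i : ℕ} (hiq : i < q) (H : Finset (Finset V)) (I : Finset V) (hI : #I = i) :
    (deg H I : ℝ) = gbinom (xSet q H I - i) (q - i) :=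
  (xSet_greatest hiq H I hI).1.1

/-- the link of a set -/
def slink (H : Finset (Finset V)) (I : Finset V) : Finset (Finset V) :=
  (H.filter (fun e => I ⊆ e)).image (fun e => e \ I)

lemma card_slink_le (H : Finset (Finset V)) (I : Finset V) : #(slink H I) ≤ deg H I :=
  card_image_le

lemma mem_slink_of {H : Finset (Finset V)} {I S : Finset V} (hd : Disjoint I S) (h : I ∪ S ∈ H) :
    S ∈ slink H I := by
  unfold slink
  rw [mem_image]
  refine ⟨I ∪ S, mem_filter.2 ⟨h, subset_union_left⟩, ?_⟩
  exact union_sdiff_cancel_left hd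

lemma x_ge {q i t : ℕ} (hiq : i < q) (hqt : q ≤ t) (H : Finset (Finset V)) (I T : Finset V)
    (hI : #I = i) (hT : T ∈ cliques q t H) (hIT : I ⊆ T) : (t:ℝ) ≤ xSet q H I := by
  unfold cliques at hT
  rw [mem_filter, mem_powersetCard] at hT
  have hd : (t - i).choose (q - i) ≤ deg H I := by
    have h1 : #((T \ I).powersetCard (q - i)) = (t - i).choose (q - i) := by
      rw [card_powersetCard, card_sdiff_of_subset hIT, hT.1.2, hI]
    rw [← h1]
    unfold deg
    apply card_le_card_of_injOn (fun S => I ∪ S)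
    · intro S hS
      rw [mem_coe, mem_powersetCard] at hS
      have hdis : Disjoint I S := disjoint_of_subset_right hS.1 disjoint_sdiff
      rw [mem_coe, mem_filter]
      refine ⟨hT.2 _ (union_subset hIT (hS.1.trans sdiff_subset)) ?_, subset_union_left⟩
      rw [card_union_of_disjoint hdis, hI, hS.2]
      omega
    · intro S hS S' hS' h
      rw [mem_coe, mem_powersetCard] at hS hS'
      have hdis : Disjoint I S := disjoint_of_subset_right hS.1 disjoint_sdiff
      have hdis' : Disjoint I S' := disjoint_of_subset_right hS'.1 disjoint_sdiff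
      have : (I ∪ S) \ I = (I ∪ S') \ I := by
        simp only at h
        rw [h]
      rwa [union_sdiff_cancel_left hdis, union_sdiff_cancel_left hdis'] at this
  have hx := xSet_greatest hiq H I hI
  by_contra hlt
  push Not at hlt
  have h2 := deg_eq hiq H I hI
  have hqi : ((q - i : ℕ) : ℝ) = (q:ℝ) - i := by rw [Nat.cast_sub hiq.le]
  have hti : ((t - i : ℕ) : ℝ) = (t:ℝ) - i := by rw [Nat.cast_sub (by omega)]
  have h3 : gbinom (xSet q H I - i) (q - i) < gbinom ((t:ℝ) - i) (q - i) := by
    apply gbinom_strictMono (by omega) _ (by linarith)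
    rw [hqi]
    linarith [hx.2]
  rw [← h2, ← hti, gbinom_nat] at h3
  have h4 : deg H I < (t - i).choose (q - i) := by exact_mod_cast h3
  omega

lemma x_le {q i : ℕ} (H : Finset (Finset V)) (I T : Finset V) (hI : #I = i) (hIT : I ⊆ T) :
    xSet q H I ≤ xClique q i H T := by
  unfold xClique
  apply le_csSup
  · exact ((Set.toFinite _).image _).bddAbove
  · exact ⟨I, ⟨hIT, hI⟩, rfl⟩

/-- number of cliques through `I` -/
lemma card_through {q i t : ℕ} (hiq : i < q) (hqt : q ≤ t) (H : Finset (Finset V))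
    (hH : ∀ e ∈ H, #e = q) (I : Finset V) (hI : #I = i)
    (hne : ((cliques q t H).filter (fun T => I ⊆ T)).Nonempty) :
    (#((cliques q t H).filter (fun T => I ⊆ T)) : ℝ) ≤ gbinom (xSet q H I - i) (t - i) := by
  obtain ⟨T, hT⟩ := hne
  rw [mem_filter] at hT
  have hx := x_ge hiq hqt H I T hI hT.1 hT.2
  have hti : ((t - i : ℕ) : ℝ) = (t:ℝ) - i := by rw [Nat.cast_sub (by omega)]
  have h1 := kk_lovasz (q - i) (t - i) (by omega) (by omega) (slink H I) (by
    intro e he
    unfold slink at he
    rw [mem_image] at he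
    obtain ⟨f, hf, rfl⟩ := he
    rw [mem_filter] at hf
    rw [card_sdiff_of_subset hf.2, hH f hf.1, hI]) (xSet q H I - i) (by rw [hti]; linarith) (by
      rw [← deg_eq hiq H I hI]
      exact_mod_cast card_slink_le H I)
  refine le_trans ?_ h1
  have h2 : #((cliques q t H).filter (fun T => I ⊆ T)) ≤ #(cl (slink H I) (q - i) (t - i)) := by
    apply card_le_card_of_injOn (fun T => T \ I)
    · intro T hT
      rw [mem_coe, mem_filter] at hT
      obtain ⟨hT1, hT2⟩ := hT
      unfold cliques at hT1
      rw [mem_filter, mem_powersetCard] at hT1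
      rw [mem_coe, mem_cl]
      refine ⟨by rw [card_sdiff_of_subset hT2, hT1.1.2, hI], ?_⟩
      intro S hS hSc
      have hdis : Disjoint I S := disjoint_of_subset_right hS disjoint_sdiff
      apply mem_slink_of hdis
      apply hT1.2 _ (union_subset hT2 (hS.trans sdiff_subset))
      rw [card_union_of_disjoint hdis, hI, hSc]
      omega
    · intro T hT T' hT' h
      rw [mem_coe, mem_filter] at hT hT'
      simp only at h
      rw [← sdiff_union_of_subset hT.2, h, sdiff_union_of_subset hT'.2]
  exact_mod_cast h2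

/-- sum of the degrees of the `i`-sets -/
lemma sum_deg {q i : ℕ} (H : Finset (Finset V)) (hH : ∀ e ∈ H, #e = q) :
    ∑ I ∈ (univ : Finset V).powersetCard i, deg H I = #H * q.choose i := by
  unfold deg
  simp_rw [card_filter]
  rw [sum_comm]
  rw [sum_congr rfl (g := fun _ => q.choose i)]
  · simp
  · intro e he
    rw [← card_filter, ← hH e he, ← card_powersetCard]
    congr 1
    ext S
    simp [mem_powersetCard, and_comm]

/-- the sum over the cliques through a fixed `i`-set -/
lemma term_le {q i t : ℕ} (hiq : i < q) (hqt : q ≤ t) (H : Finset (Finset V))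
    (hH : ∀ e ∈ H, #e = q) (I : Finset V) (hI : #I = i) :
    ∑ T ∈ (cliques q t H).filter (fun T => I ⊆ T), 1 / gbinom (xSet q H I - q) (t - q) ≤
      (deg H I : ℝ) / ((t - i).choose (q - i) : ℝ) := by
  rw [sum_const, nsmul_eq_mul]
  rcases ((cliques q t H).filter (fun T => I ⊆ T)).eq_empty_or_nonempty with he | hne
  · rw [he]
    simp only [card_empty, Nat.cast_zero, zero_mul]
    positivity
  have h1 := card_through hiq hqt H hH I hI hne
  obtain ⟨T, hT⟩ := hne
  rw [mem_filter] at hT
  have hx := x_ge hiq hqt H I T hI hT.1 hT.2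
  have htq : ((t - q : ℕ) : ℝ) = (t:ℝ) - q := by rw [Nat.cast_sub hqt]
  have hqi : ((q - i : ℕ) : ℝ) = (q:ℝ) - i := by rw [Nat.cast_sub hiq.le]
  have hpos : 0 < gbinom (xSet q H I - q) (t - q) := by
    apply gbinom_pos
    rw [htq]; linarith
  have h2 := gbinom_mul (xSet q H I - i) (q - i) (t - q)
  rw [hqi] at h2
  have h3 : xSet q H I - i - ((q:ℝ) - i) = xSet q H I - q := by ring
  have h4 : q - i + (t - q) = t - i := by omega
  rw [h3, h4, ← deg_eq hiq H I hI] at h2
  have hc : (0:ℝ) < ((t - i).choose (q - i) : ℝ) := by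
    exact_mod_cast Nat.choose_pos (by omega)
  rw [mul_one_div, div_le_div_iff₀ hpos hc, h2]
  exact mul_le_mul_of_nonneg_right h1 hc.le

theorem main {q i t : ℕ} (hiq : i < q) (hqt : q ≤ t) (H : Finset (Finset V))
    (hH : ∀ e ∈ H, #e = q) :
    ∑ T ∈ cliques q t H, sPrime q i t H T ≤ (#H : ℝ) / (t.choose q : ℝ) := by
  have htq : ((t - q : ℕ) : ℝ) = (t:ℝ) - q := by rw [Nat.cast_sub hqt]
  have hti : (0:ℝ) < (t.choose i : ℝ) := by exact_mod_cast Nat.choose_pos (by omega)
  -- step 1
  have h1 : ∀ T ∈ cliques q t H, (t.choose i : ℝ) * sPrime q i t H T ≤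
      ∑ I ∈ T.powersetCard i, 1 / gbinom (xSet q H I - q) (t - q) := by
    intro T hT
    have hTc : #T = t := by
      unfold cliques at hT
      rw [mem_filter, mem_powersetCard] at hT
      exact hT.1.2
    have : (t.choose i : ℝ) * sPrime q i t H T = ∑ I ∈ T.powersetCard i, sPrime q i t H T := by
      rw [sum_const, nsmul_eq_mul, card_powersetCard, hTc]
    rw [this]
    apply sum_le_sum
    intro I hI
    rw [mem_powersetCard] at hI
    have hx := x_ge hiq hqt H I T hI.2 hT hI.1
    have hpos : 0 < gbinom (xSet q H I - q) (t - q) := by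
      apply gbinom_pos
      rw [htq]; linarith
    unfold sPrime
    change 1 / gbinom (xClique q i H T - q) (t - q) ≤ _
    apply one_div_le_one_div_of_le hpos
    apply gbinom_mono
    · rw [htq]; linarith
    · linarith [x_le (q := q) H I T hI.2 hI.1]
  have h2 : (t.choose i : ℝ) * ∑ T ∈ cliques q t H, sPrime q i t H T ≤
      ∑ I ∈ (univ : Finset V).powersetCard i, (deg H I : ℝ) / ((t - i).choose (q - i) : ℝ) := by
    rw [mul_sum]
    refine (sum_le_sum h1).trans ?_
    have h3 : ∑ T ∈ cliques q t H, ∑ I ∈ T.powersetCard i, 1 / gbinom (xSet q H I - q) (t - q) =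
        ∑ I ∈ (univ : Finset V).powersetCard i,
          ∑ T ∈ (cliques q t H).filter (fun T => I ⊆ T), 1 / gbinom (xSet q H I - q) (t - q) := by
      apply sum_comm'
      intro T I
      rw [mem_powersetCard, mem_filter, mem_powersetCard]
      constructor
      · rintro ⟨h1, h2, h3⟩
        exact ⟨⟨h1, h2⟩, subset_univ _, h3⟩
      · rintro ⟨⟨h1, h2⟩, _, h3⟩
        exact ⟨h1, h2, h3⟩
    rw [h3]
    apply sum_le_sum
    intro I hI
    exact term_le hiq hqt H hH I (mem_powersetCard.1 hI).2
  rw [← sum_div] at h2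
  have h4 : (∑ I ∈ (univ : Finset V).powersetCard i, (deg H I : ℝ)) = (#H : ℝ) * (q.choose i : ℝ) := by
    exact_mod_cast sum_deg H hH
  rw [h4] at h2
  have h5 : (t.choose q : ℝ) * (q.choose i : ℝ) = (t.choose i : ℝ) * ((t - i).choose (q - i) : ℝ) := by
    exact_mod_cast Nat.choose_mul (n := t) (k := q) (s := i) hiq.le
  have h6 : (0:ℝ) < ((t - i).choose (q - i) : ℝ) := by exact_mod_cast Nat.choose_pos (by omega)
  have h7 : (0:ℝ) < (t.choose q : ℝ) := by exact_mod_cast Nat.choose_pos hqt
  have h8 : (0:ℝ) < (q.choose i : ℝ) := by exact_mod_cast Nat.choose_pos hiq.le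
  rw [le_div_iff₀ h6] at h2
  rw [le_div_iff₀ h7]
  have h9 : (∑ T ∈ cliques q t H, sPrime q i t H T) * (t.choose q : ℝ) * (q.choose i : ℝ) ≤
      (#H : ℝ) * (q.choose i : ℝ) := by
    calc _ = (∑ T ∈ cliques q t H, sPrime q i t H T) * ((t.choose q : ℝ) * (q.choose i : ℝ)) := by ring
      _ = (t.choose i : ℝ) * (∑ T ∈ cliques q t H, sPrime q i t H T) * ((t - i).choose (q - i) : ℝ) := by
          rw [h5]; ring
      _ ≤ _ := h2
  exact le_of_mul_le_mul_right h9 h8

/-- **Localized clique-counting inequality.**  For all `t ≥ q > i ≥ 1` and every finite `q`-uniform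
hypergraph `H`: every `i`-set `I` has a largest real solution `x(I)` of `d(I) = C(x - i, q - i)`,
which is at least `q - 1`, and `∑_T s'(T) ≤ m / C(t,q)`, the sum over all `t`-cliques. -/
theorem result.{u} (t q i : ℕ) (hi : 1 ≤ i) (hiq : i < q) (hqt : q ≤ t)
    (V : Type u) [Fintype V] [DecidableEq V] (H : Finset (Finset V)) (hH : ∀ e ∈ H, #e = q) :
    (∀ I : Finset V, #I = i →
      IsGreatest {x : ℝ | (deg H I : ℝ) = binom (x - i) (q - i)} (xSet q H I) ∧
        (q:ℝ) - 1 ≤ xSet q H I) ∧
    ∑ T ∈ cliques q t H, sPrime q i t H T ≤ (#H : ℝ) / (t.choose q : ℝ) := by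
  have _ := hi
  exact ⟨fun I hI => xSet_greatest hiq H I hI, main hiq hqt H hH⟩

end Pool.Agent.Results.MP_cab928_co.LocalizedCliques
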